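import Mathlib

/-!
The field of algebraic numbers, its valuations with values in `ℚ ∪ {∞}` which extend a `p`-adic
valuation of `ℚ`, and the set of the square-free elements.
-/

set_option autoImplicit false

namespace Pool.Agent.R612.TP

/-- the field of algebraic numbers -/
abbrev Qbar : Type := AlgebraicClosure ℚ

/-- valuations of the field of algebraic numbers with values in `ℚ ∪ {∞}` (written additively) -/
abbrev Val : Type := AddValuation Qbar (WithTop ℚ)

/-- `v` extends the `p`-adic valuation of `ℚ` -/
def Ext (p : ℕ) (v : Val) : Prop :=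
  ∀ q : ℚ, q ≠ 0 → v (algebraMap ℚ Qbar q) = ((padicValRat p q : ℚ) : WithTop ℚ)

/-- the algebraic numbers `a` with `v a < 2` for all valuations `v` which extend a `p`-adic
valuation of `ℚ`, for some prime `p` -/
def Sqf : Set Qbar := {a | ∀ p : ℕ, p.Prime → ∀ v : Val, Ext p v → v a < 2}

end Pool.Agent.R612.TP
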