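import Pool.Agent.R612.TP.Val

/-!
The key lemma: algebraic numbers `w` such that `w / 3`, `w - c` and `w - z` are square-free and `w`
has valuation at least two at a given place above `3`.
-/

set_option autoImplicit false

namespace Pool.Agent.R612.TP

open Polynomial

section near

variable {v : Val}

theorem near_mul {x y : Qbar} (hx : 0 ≤ v x) (h1 : 2 ≤ v (x - 1)) (h2 : 2 ≤ v (y - 1)) :
    2 ≤ v (x * y - 1) := by
  have e : x * y - 1 = x * (y - 1) + (x - 1) := by ring
  rw [e]
  refine AddValuation.map_le_add v ?_ h1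
  rw [AddValuation.map_mul]
  calc (2 : WithTop ℚ) = 0 + 2 := by rw [zero_add]
    _ ≤ v x + v (y - 1) := add_le_add hx h2

theorem near_nonneg {x : Qbar} (h1 : 2 ≤ v (x - 1)) : 0 ≤ v x := by
  have e : x = (x - 1) + 1 := by ring
  rw [e]
  refine AddValuation.map_le_add v (le_trans (by norm_num) h1) ?_
  rw [AddValuation.map_one]

theorem near_pow {x : Qbar} (h1 : 2 ≤ v (x - 1)) (n : ℕ) : 2 ≤ v (x ^ n - 1) := by
  induction n with
  | zero => simp
  | succ n ih =>
    rw [pow_succ]
    exact near_mul (near_nonneg ih) ih h1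

theorem map_multiset_prod {ι : Type} (s : Multiset ι) (f : ι → Qbar) :
    v (s.map f).prod = (s.map fun i => v (f i)).sum := by
  induction s using Multiset.induction with
  | empty => simp
  | cons a s ih => simp [ih]

end near

/-- The valuation ring -/
def O (v : Val) : Subring Qbar where
  carrier := {x | 0 ≤ v x}
  mul_mem' := fun {a b} ha hb => by
    simp only [Set.mem_ofPred_eq, AddValuation.map_mul] at *
    exact add_nonneg ha hb
  one_mem' := by simp
  add_mem' := fun {a b} ha hb => AddValuation.map_le_add v ha hb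
  zero_mem' := by simp
  neg_mem' := fun {a} ha => by simpa using ha

theorem aeval_sub_val {v : Val} {P : ℤ[X]} {x y : Qbar} (hx : 0 ≤ v x) (hy : 0 ≤ v y) :
    v (x - y) ≤ v (aeval x P - aeval y P) := by
  let x' : O v := ⟨x, hx⟩
  let y' : O v := ⟨y, hy⟩
  have h := Polynomial.sub_dvd_eval_sub x' y' (P.map (Int.castRingHom (O v)))
  obtain ⟨q, hq⟩ := h
  have e1 : ((eval x' (P.map (Int.castRingHom (O v))) : O v) : Qbar) = aeval x P := by
    rw [eval_map, ← Subring.coe_subtype, hom_eval₂, aeval_def]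
    congr 1
  have e2 : ((eval y' (P.map (Int.castRingHom (O v))) : O v) : Qbar) = aeval y P := by
    rw [eval_map, ← Subring.coe_subtype, hom_eval₂, aeval_def]
    congr 1
  have h2 := congrArg (fun t : O v => (t : Qbar)) hq
  simp only [AddSubgroupClass.coe_sub, Subring.coe_mul, e1, e2] at h2
  rw [h2, AddValuation.map_mul]
  have h3 : 0 ≤ v (q : Qbar) := q.2
  calc v (x - y) = v (x - y) + 0 := by rw [add_zero]
    _ ≤ v (x - y) + v (q : Qbar) := by gcongr

theorem aeval_nonneg {v : Val} {P : ℤ[X]} {x : Qbar} (hx : 0 ≤ v x) :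
    0 ≤ v (aeval x P) := by
  let x' : O v := ⟨x, hx⟩
  have e1 : ((eval x' (P.map (Int.castRingHom (O v))) : O v) : Qbar) = aeval x P := by
    rw [eval_map, ← Subring.coe_subtype, hom_eval₂, aeval_def]
    congr 1
  rw [← e1]
  exact (eval x' (P.map (Int.castRingHom (O v)))).2

/-- an algebraic integer which is a unit at all places above `3`, and not congruent to `y` -/
theorem exists_tau (y : Qbar) : ∃ τ : Qbar, IsIntegral ℤ τ ∧ ∀ v : Val, Ext 3 v →
    v τ = 0 ∧ (0 ≤ v y → v (τ - y) ≤ 0) := by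
  classical
  have : Fact (Nat.Prime 3) := ⟨by norm_num⟩
  have halg : IsAlgebraic ℤ y := by
    have h1 : IsAlgebraic ℚ y := Algebra.IsAlgebraic.isAlgebraic y
    exact (IsFractionRing.isAlgebraic_iff ℤ ℚ Qbar).2 h1
  obtain ⟨g₀, hg₀, hy₀⟩ := halg
  set g := g₀.primPart with hg
  have hgy : aeval y g = 0 := by
    have h1 := g₀.eq_C_content_mul_primPart
    rw [h1, map_mul, aeval_C] at hy₀
    rcases mul_eq_zero.1 hy₀ with h2 | h2
    · exfalso
      have : g₀.content = 0 := by simpa using h2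
      exact hg₀ (content_eq_zero_iff.1 this)
    · exact h2
  set φ := Int.castRingHom (ZMod 3) with hφ
  have hgm : g.map φ ≠ 0 := by
    intro h0
    have h3 : C (3 : ℤ) ∣ g := by
      rw [C_dvd_iff_dvd_coeff]
      intro i
      have := congrArg (fun q => coeff q i) h0
      simp only [coeff_map, coeff_zero, hφ, eq_intCast] at this
      exact_mod_cast (ZMod.intCast_zmod_eq_zero_iff_dvd _ 3).1 this
    have h4 := (isPrimitive_primPart g₀) 3 h3
    have := Int.isUnit_iff.1 h4
    omega
  set gb := g.map φ with hgb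
  set G0 : (ZMod 3)[X] := C (gb.leadingCoeff⁻¹) * (X * gb) with hG0
  have hG0m : G0.Monic := by
    have h1 : (X * gb).leadingCoeff = gb.leadingCoeff := by
      rw [leadingCoeff_mul, leadingCoeff_X, one_mul]
    unfold Monic
    rw [hG0, leadingCoeff_mul, leadingCoeff_C, h1]
    exact inv_mul_cancel₀ (leadingCoeff_ne_zero.2 hgm)
  have hlift : G0 ∈ lifts φ := by
    rw [lifts_iff_coeff_lifts]
    intro n
    obtain ⟨k, hk⟩ := ZMod.intCast_surjective (G0.coeff n)
    exact ⟨k, by simpa [hφ] using hk⟩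
  obtain ⟨G, hGm, hGd, hGmon⟩ := lifts_and_natDegree_eq_and_monic hlift hG0m
  have hdeg : 0 < G.natDegree := by
    rw [hGd, hG0, natDegree_C_mul (inv_ne_zero (leadingCoeff_ne_zero.2 hgm)),
      natDegree_X_mul hgm]
    omega
  obtain ⟨l, hl⟩ := ZMod.intCast_surjective (gb.leadingCoeff⁻¹)
  have hdvd : C (3 : ℤ) ∣ G - C l * (X * g) := by
    rw [C_dvd_iff_dvd_coeff]
    intro i
    have h1 : (G - C l * (X * g)).map φ = 0 := by
      rw [Polynomial.map_sub, hGm, Polynomial.map_mul, map_C, Polynomial.map_mul, map_X, hG0]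
      have : φ l = gb.leadingCoeff⁻¹ := by simpa [hφ] using hl
      rw [this, sub_self]
    have := congrArg (fun q => coeff q i) h1
    simp only [coeff_map, coeff_zero, hφ, eq_intCast] at this
    exact_mod_cast (ZMod.intCast_zmod_eq_zero_iff_dvd _ 3).1 this
  obtain ⟨H, hH⟩ := hdvd
  have hGe : ∀ x : Qbar, aeval x G = l * (x * aeval x g) + 3 * aeval x H := by
    intro x
    have : G = C l * (X * g) + C 3 * H := by rw [← hH]; ring
    rw [this, map_add, map_mul, map_mul, map_mul, aeval_C, aeval_C, aeval_X]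
    simp
  -- the polynomial `G + 1`
  have hmon : (G + 1).Monic := by
    refine hGmon.add_of_left ?_
    rw [degree_one]
    exact natDegree_pos_iff_degree_pos.1 hdeg
  obtain ⟨τ, hτ⟩ : ∃ τ : Qbar, aeval τ (G + 1) = 0 := by
    have h1 : ((G + 1).map (algebraMap ℤ Qbar)).degree ≠ 0 := by
      rw [hmon.degree_map, degree_add_eq_left_of_degree_lt
        (by rw [degree_one]; exact natDegree_pos_iff_degree_pos.1 hdeg)]
      exact (natDegree_pos_iff_degree_pos.1 hdeg).ne'
    obtain ⟨τ, hτ⟩ := IsAlgClosed.exists_root _ h1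
    refine ⟨τ, ?_⟩
    rw [IsRoot, eval_map_algebraMap] at hτ
    exact hτ
  have hτ1 : aeval τ G = -1 := by
    rw [map_add, map_one] at hτ
    linear_combination hτ
  have hint : IsIntegral ℤ τ := ⟨G + 1, hmon, by rw [← aeval_def]; exact hτ⟩
  refine ⟨τ, hint, fun v hv => ?_⟩
  have h3 : v (3 : Qbar) = 1 := hv.val_three
  have hτ0 : 0 ≤ v τ := hv.integral_nonneg hint
  have key : ∀ x : Qbar, 0 ≤ v x → x * aeval x g = 0 → v (τ - x) ≤ 0 := by
    intro x hx hxg
    by_contra hcon
    push Not at hcon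
    have h4 : 0 < v (aeval τ G - aeval x G) := lt_of_lt_of_le hcon (aeval_sub_val hτ0 hx)
    have h5 : 0 < v (aeval x G) := by
      rw [hGe, hxg, mul_zero, zero_add, AddValuation.map_mul, h3]
      have := aeval_nonneg (P := H) hx
      calc (0 : WithTop ℚ) < 1 + 0 := by norm_num
        _ ≤ 1 + v (aeval x H) := by gcongr
    have h6 : 0 < v (aeval τ G) := by
      have e : aeval τ G = (aeval τ G - aeval x G) + aeval x G := by ring
      rw [e]
      exact AddValuation.map_lt_add v h4 h5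
    rw [hτ1, AddValuation.map_neg, AddValuation.map_one] at h6
    exact lt_irrefl _ h6
  refine ⟨le_antisymm ?_ hτ0, fun hy => key y hy (by rw [hgy, mul_zero])⟩
  have := key 0 (by simp) (by simp)
  simpa using this

section key

/-- the ultrametric inequality for rational values -/
theorem rat_min {v : Val} {x y z : Qbar} {a b c : ℚ} (hx : v x = a) (hy : v y = b) (hz : v z = c)
    (h : z = x + y) : min a b ≤ c := by
  have h1 := AddValuation.map_add v x y
  rw [← h, hx, hy, hz] at h1
  exact_mod_cast h1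

theorem rat_neg {v : Val} {x : Qbar} {a : ℚ} (hx : v x = a) : v (-x) = a := by
  rw [AddValuation.map_neg, hx]

theorem arith3 {α a b r0 r1 r2 : ℚ} (e : α = r0 + 3 * r1 + 2 * r2) (hb : 0 ≤ b)
    (hα : α ≤ 2 + 3 * min a 0 - 3 * b) (h1 : min r0 a ≤ r1) (h2 : min r0 b ≤ r2)
    (h3 : min r1 a ≤ r0) (h4 : min r2 b ≤ r0) (h5 : min r1 (min a b) ≤ r2)
    (h6 : min r2 (min a b) ≤ r1) : r0 < 3 ∧ r1 < 2 ∧ r2 < 2 := by
  refine ⟨?_, ?_, ?_⟩
  · by_contra hc
    push Not at hc
    have g1 : min a 0 ≤ r1 := by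
      refine le_trans ?_ h1
      rw [le_min_iff]
      exact ⟨(min_le_right _ _).trans (by linarith), min_le_left _ _⟩
    have g2 : 0 ≤ r2 := by
      refine le_trans ?_ h2
      rw [le_min_iff]
      exact ⟨by linarith, hb⟩
    linarith
  · by_contra hc
    push Not at hc
    have g0 : min a 0 ≤ r0 := by
      refine le_trans ?_ h3
      rw [le_min_iff]
      exact ⟨(min_le_right _ _).trans (by linarith), min_le_left _ _⟩
    have g2 : min a 0 ≤ r2 := by
      refine le_trans ?_ h5
      rw [le_min_iff, le_min_iff]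
      exact ⟨(min_le_right _ _).trans (by linarith), min_le_left _ _,
        (min_le_right _ _).trans hb⟩
    linarith
  · by_contra hc
    push Not at hc
    have g0 : 0 ≤ r0 := by
      refine le_trans ?_ h4
      rw [le_min_iff]
      exact ⟨by linarith, hb⟩
    have g1 : min a 0 ≤ r1 := by
      refine le_trans ?_ h6
      rw [le_min_iff, le_min_iff]
      exact ⟨(min_le_right _ _).trans (by linarith), min_le_left _ _,
        (min_le_right _ _).trans hb⟩
    linarith

theorem arithp {α a b k r0 r1 r2 : ℚ} (e : α = r0 + 3 * r1 + 2 * r2) (hk : 0 ≤ k)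
    (ha : -k ≤ a) (hb : -k ≤ b)
    (hα : α ≤ - 5 * k) (h1 : min r0 a ≤ r1) (h2 : min r0 b ≤ r2)
    (h3 : min r1 a ≤ r0) (h4 : min r2 b ≤ r0) (h5 : min r1 (min a b) ≤ r2)
    (h6 : min r2 (min a b) ≤ r1) : r0 < 2 ∧ r1 < 2 ∧ r2 < 2 := by
  refine ⟨?_, ?_, ?_⟩
  · by_contra hc
    push Not at hc
    have g1 : -k ≤ r1 := le_trans (le_min (by linarith) ha) h1
    have g2 : -k ≤ r2 := le_trans (le_min (by linarith) hb) h2
    linarith
  · by_contra hc
    push Not at hc
    have g0 : -k ≤ r0 := le_trans (le_min (by linarith) ha) h3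
    have g2 : -k ≤ r2 := le_trans (le_min (by linarith) (le_min ha hb)) h5
    linarith
  · by_contra hc
    push Not at hc
    have g0 : -k ≤ r0 := le_trans (le_min (by linarith) hb) h4
    have g1 : -k ≤ r1 := le_trans (le_min (by linarith) (le_min ha hb)) h6
    linarith

/-- the root with a large valuation -/
theorem exists_root {v₀ : Val} {A c z : Qbar} {a : ℚ} (hc : c ≠ 0) (hz : z ≠ 0)
    (hvc : v₀ c = 0) (hvz : v₀ z = a) (ha : a ≤ 0) (hA : A ≠ 0)
    (hvA : v₀ A = ((2 + 3 * a : ℚ) : WithTop ℚ)) :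
    ∃ w : Qbar, 2 ≤ v₀ w ∧ w * (w - z) ^ 3 * (w - c) ^ 2 = A := by
  set F : Qbar[X] := X * (X - C z) ^ 3 * (X - C c) ^ 2 - C A with hF
  have hmon0 : (X * (X - C z) ^ 3 * (X - C c) ^ 2 : Qbar[X]).Monic :=
    (monic_X.mul ((monic_X_sub_C z).pow 3)).mul ((monic_X_sub_C c).pow 2)
  have hdeg0 : (X * (X - C z) ^ 3 * (X - C c) ^ 2 : Qbar[X]).natDegree = 6 := by
    rw [(monic_X.mul ((monic_X_sub_C z).pow 3)).natDegree_mul ((monic_X_sub_C c).pow 2),
      monic_X.natDegree_mul ((monic_X_sub_C z).pow 3), (monic_X_sub_C z).natDegree_pow,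
      (monic_X_sub_C c).natDegree_pow, natDegree_X, natDegree_X_sub_C, natDegree_X_sub_C]
  have hmon : F.Monic := by
    rw [hF, sub_eq_add_neg]
    refine hmon0.add_of_left ?_
    rw [degree_neg]
    refine lt_of_le_of_lt degree_C_le ?_
    rw [← natDegree_pos_iff_degree_pos, hdeg0]
    norm_num
  have hev : ∀ x, F.eval x = x * (x - z) ^ 3 * (x - c) ^ 2 - A := by
    intro x
    simp [hF]
  by_contra hcon
  push Not at hcon
  have hroot : ∀ w ∈ F.roots, v₀ w < 2 := by
    intro w hw
    by_contra h2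
    push Not at h2
    have h3 := (mem_roots'.1 hw).2
    rw [IsRoot, hev, sub_eq_zero] at h3
    exact hcon w h2 h3
  -- the test point
  set u : Qbar := - A / (z ^ 3 * c ^ 2) with hu
  have hden : z ^ 3 * c ^ 2 ≠ 0 := mul_ne_zero (pow_ne_zero _ hz) (pow_ne_zero _ hc)
  have hu0 : u ≠ 0 := div_ne_zero (neg_ne_zero.2 hA) hden
  obtain ⟨s, hs⟩ := exists_rat (v := v₀) hu0
  have huA : -A = u * (z ^ 3 * c ^ 2) := by
    rw [hu]; field_simp
  have hs2 : s = 2 := by
    have h1 := congrArg v₀ huA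
    rw [AddValuation.map_neg, AddValuation.map_mul, AddValuation.map_mul, AddValuation.map_pow,
      AddValuation.map_pow, hvc, hvz, hs, hvA, nsmul_coe, smul_zero, add_zero] at h1
    have h2 : (2 + 3 * a : ℚ) = s + (3 : ℕ) * a := by exact_mod_cast h1
    push_cast at h2
    linarith
  rw [hs2] at hs
  have hfu : v₀ (F.eval u) = v₀ A := by
    have h1 : F.eval u = (F.roots.map fun w => u - w).prod :=
      (IsAlgClosed.splits F).eval_eq_prod_roots_of_monic hmon u
    have h2 : F.eval 0 = (F.roots.map fun w => 0 - w).prod :=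
      (IsAlgClosed.splits F).eval_eq_prod_roots_of_monic hmon 0
    have h3 : F.eval 0 = - A := by rw [hev]; ring
    rw [← AddValuation.map_neg v₀ A, ← h3, h1, h2, map_multiset_prod, map_multiset_prod]
    congr 1
    refine Multiset.map_congr rfl fun w hw => ?_
    have h4 := hroot w hw
    rw [zero_sub, AddValuation.map_neg]
    refine AddValuation.map_sub_eq_of_lt_right v₀ ?_
    rw [hs]
    exact h4
  -- but the value is larger
  have hfu2 : v₀ A < v₀ (F.eval u) := by
    have e : F.eval u = -A * ((u * z⁻¹ - 1) ^ 3 * (u * c⁻¹ - 1) ^ 2 + 1) := by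
      rw [hev, huA]
      have : A = - (u * (z ^ 3 * c ^ 2)) := by rw [← huA]; ring
      rw [this]
      field_simp
      ring
    have e2 : (u * z⁻¹ - 1) ^ 3 * (u * c⁻¹ - 1) ^ 2 + 1 =
        - ((1 - u * z⁻¹) ^ 3 * (1 - u * c⁻¹) ^ 2 - 1) := by ring
    have hz1 : 2 ≤ v₀ ((1 - u * z⁻¹) - 1) := by
      have : (1 - u * z⁻¹) - 1 = -(u / z) := by field_simp; ring
      rw [this, AddValuation.map_neg]
      have h5 : v₀ u = v₀ (u / z) + v₀ z := by
        rw [← AddValuation.map_mul]; congr 1; field_simp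
      have hne : u / z ≠ 0 := div_ne_zero hu0 hz
      obtain ⟨t, ht⟩ := exists_rat (v := v₀) hne
      rw [hs, ht, hvz] at h5
      have h6 : (2 : ℚ) = t + a := by exact_mod_cast h5
      rw [ht]
      have : (2 : ℚ) ≤ t := by linarith
      exact WithTop.coe_le_coe.2 this
    have hc1 : 2 ≤ v₀ ((1 - u * c⁻¹) - 1) := by
      have : (1 - u * c⁻¹) - 1 = -(u / c) := by field_simp; ring
      rw [this, AddValuation.map_neg]
      have h5 : v₀ u = v₀ (u / c) + v₀ c := by
        rw [← AddValuation.map_mul]; congr 1; field_simp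
      rw [hvc, add_zero] at h5
      rw [← h5, hs]
      exact le_rfl
    have h7 := near_mul (near_nonneg (near_pow hz1 3)) (near_pow hz1 3) (near_pow hc1 2)
    rw [e, AddValuation.map_mul, e2, AddValuation.map_neg, AddValuation.map_neg, hvA]
    calc ((2 + 3 * a : ℚ) : WithTop ℚ) < ((2 + 3 * a + 2 : ℚ) : WithTop ℚ) := by
          have : (2 + 3 * a : ℚ) < 2 + 3 * a + 2 := by linarith
          exact_mod_cast this
      _ = ((2 + 3 * a : ℚ) : WithTop ℚ) + 2 := by push_cast; rfl
      _ ≤ _ := by gcongr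
  rw [hfu] at hfu2
  exact lt_irrefl _ hfu2

theorem key (c z : Qbar) (hc : c ≠ 0) (hz : z ≠ 0) (hcv : ∀ v, Ext 3 v → 0 ≤ v c)
    (v₀ : Val) (hv₀ : Ext 3 v₀) (h1 : v₀ c = 0) (h2 : v₀ z ≤ 0) :
    ∃ w : Qbar, 2 ≤ v₀ w ∧ ∀ p : ℕ, p.Prime → ∀ v : Val, Ext p v →
      v (w / 3) < 2 ∧ v (w - c) < 2 ∧ v (w - z) < 2 := by
  obtain ⟨τ, hτint, hτ⟩ := exists_tau (-z⁻¹)
  set E : Qbar := τ * z + 1 with hE
  have hEz : E = z * (τ - -z⁻¹) := by
    rw [hE]; field_simp
    ring
  -- the valuation of `E` above `3`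
  have hE3 : ∀ v : Val, Ext 3 v → ∀ a : ℚ, v z = a → v E ≤ ((min a 0 : ℚ) : WithTop ℚ) := by
    intro v hv a ha
    obtain ⟨t1, t2⟩ := hτ v hv
    rcases le_or_gt a 0 with h | h
    · rw [min_eq_left h, hEz, AddValuation.map_mul, ha]
      have h3 : v (-z⁻¹) = ((-a : ℚ) : WithTop ℚ) := by
        obtain ⟨t, ht⟩ := exists_rat (v := v) (neg_ne_zero.2 (inv_ne_zero hz))
        have h4 : v (-z⁻¹) + v z = 0 := by
          rw [← AddValuation.map_mul]
          have : -z⁻¹ * z = -1 := by field_simp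
          rw [this, AddValuation.map_neg, AddValuation.map_one]
        rw [ht, ha] at h4
        have h5 : t + a = 0 := by exact_mod_cast h4
        rw [ht]
        congr 1
        linarith
      have h4 : v (τ - -z⁻¹) ≤ 0 := t2 (by rw [h3]; exact_mod_cast (by linarith : (0:ℚ) ≤ -a))
      calc (a : WithTop ℚ) + v (τ - -z⁻¹) ≤ a + 0 := by gcongr
        _ = a := by rw [add_zero]
    · rw [min_eq_right h.le]
      have h3 : 0 < v (τ * z) := by
        rw [AddValuation.map_mul, t1, zero_add, ha]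
        exact_mod_cast h
      have h4 : v E = 0 := by
        rw [hE, AddValuation.map_add_eq_of_lt_right (v := v) (x := τ * z) (y := 1)
          (by rw [AddValuation.map_one]; exact h3), AddValuation.map_one]
      rw [h4]
      exact le_rfl
  obtain ⟨a₀, ha₀⟩ := exists_rat (v := v₀) hz
  have ha₀' : a₀ ≤ 0 := by rw [ha₀] at h2; exact_mod_cast h2
  have hE₀ : v₀ E = a₀ := by
    refine le_antisymm ?_ ?_
    · have := hE3 v₀ hv₀ a₀ ha₀
      rwa [min_eq_left ha₀'] at this
    · rw [hE]
      refine AddValuation.map_le_add v₀ ?_ ?_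
      · rw [AddValuation.map_mul, (hτ v₀ hv₀).1, zero_add, ha₀]
      · rw [AddValuation.map_one]
        exact_mod_cast ha₀'
  have hE0 : E ≠ 0 := by
    intro h
    rw [h, AddValuation.map_zero] at hE₀
    exact WithTop.coe_ne_top hE₀.symm
  -- the denominator
  classical
  have halgZ : Algebra.IsAlgebraic ℤ Qbar :=
    ⟨fun x => (IsFractionRing.isAlgebraic_iff ℤ ℚ Qbar).2 (Algebra.IsAlgebraic.isAlgebraic x)⟩
  obtain ⟨D, hD0, hD⟩ := Algebra.IsAlgebraic.exists_integral_multiples ℤ ({z, c, E⁻¹} : Finset Qbar)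
  have hDz := hD z (by simp)
  have hDc := hD c (by simp)
  have hDE := hD E⁻¹ (by simp)
  rw [zsmul_eq_mul] at hDz hDc hDE
  obtain ⟨k, D', hD', hDD⟩ := Nat.exists_eq_pow_mul_and_not_dvd (n := D.natAbs)
    (Int.natAbs_ne_zero.2 hD0) 3 (by norm_num)
  have hD'0 : D' ≠ 0 := by
    rintro rfl
    exact hD' (dvd_zero 3)
  set M : Qbar := (D' : Qbar) ^ 11 with hM
  have hM0 : M ≠ 0 := pow_ne_zero _ (by exact_mod_cast hD'0)
  set A : Qbar := 9 * (E / c) ^ 3 / M with hA
  have hA0 : A ≠ 0 := by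
    rw [hA]
    exact div_ne_zero (mul_ne_zero (by norm_num) (pow_ne_zero _ (div_ne_zero hE0 hc))) hM0
  have hvalA : ∀ (v : Val) (e b m n : ℚ), v E = e → v c = b → v (D' : Qbar) = m →
      v (9 : Qbar) = n → v A = ((n + 3 * e - 3 * b - 11 * m : ℚ) : WithTop ℚ) := by
    intro v e b m n h3 h4 h5 h6
    have h7 : A * (c ^ 3 * (D' : Qbar) ^ 11) = 9 * E ^ 3 := by
      rw [hA, hM]
      have : (D' : Qbar) ≠ 0 := by exact_mod_cast hD'0
      field_simp
    obtain ⟨α, hα⟩ := exists_rat (v := v) hA0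
    have h8 := congrArg v h7
    simp only [AddValuation.map_mul, AddValuation.map_pow, hα, h3, h4, h5, h6, nsmul_coe] at h8
    have h9 : α + ((3 : ℕ) * b + (11 : ℕ) * m) = n + (3 : ℕ) * e := by exact_mod_cast h8
    rw [hα]
    congr 1
    push_cast at h9
    linarith
  have hv9 : ∀ v, Ext 3 v → v (9 : Qbar) = ((2 : ℚ) : WithTop ℚ) := by
    intro v hv
    have : (9 : Qbar) = 3 ^ 2 := by norm_num
    have h1 : (1 : WithTop ℚ) = ((1 : ℚ) : WithTop ℚ) := rfl
    rw [this, AddValuation.map_pow, hv.val_three, h1, nsmul_coe]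
    norm_num
  have hb₀ : v₀ c = ((0 : ℚ) : WithTop ℚ) := by rw [h1]; rfl
  obtain ⟨w, hw2, hw⟩ := exists_root (v₀ := v₀) (A := A) (c := c) (z := z) (a := a₀) hc hz h1 ha₀
    ha₀' hA0 (by
      rw [hvalA v₀ a₀ 0 0 2 hE₀ hb₀ (by rw [hv₀.val_nat_coprime hD'0 hD']; rfl) (hv9 v₀ hv₀)]
      congr 1
      ring)
  refine ⟨w, hw2, fun p hp v hv => ?_⟩
  have hw0 : w ≠ 0 := by
    rintro rfl
    apply hA0
    rw [← hw]
    ring
  have hw1 : w - z ≠ 0 := by
    intro h
    apply hA0
    rw [← hw, h]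
    ring
  have hw2' : w - c ≠ 0 := by
    intro h
    apply hA0
    rw [← hw, h]
    ring
  obtain ⟨r0, hr0⟩ := exists_rat (v := v) hw0
  obtain ⟨r1, hr1⟩ := exists_rat (v := v) hw1
  obtain ⟨r2, hr2⟩ := exists_rat (v := v) hw2'
  obtain ⟨a, ha⟩ := exists_rat (v := v) hz
  obtain ⟨b, hb⟩ := exists_rat (v := v) hc
  obtain ⟨e, he⟩ := exists_rat (v := v) hE0
  have hD'q : (D' : Qbar) ≠ 0 := by exact_mod_cast hD'0
  obtain ⟨m, hm⟩ := exists_rat (v := v) hD'q
  obtain ⟨n, hn⟩ := exists_rat (v := v) (show (9 : Qbar) ≠ 0 by norm_num)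
  have hα := hvalA v e b m n he hb hm hn
  have hsum : (n + 3 * e - 3 * b - 11 * m : ℚ) = r0 + 3 * r1 + 2 * r2 := by
    have h8 := congrArg v hw
    simp only [AddValuation.map_mul, AddValuation.map_pow, hα, hr0, hr1, hr2, nsmul_coe] at h8
    have h9 : r0 + (3 : ℕ) * r1 + (2 : ℕ) * r2 = n + 3 * e - 3 * b - 11 * m := by
      exact_mod_cast h8
    push_cast at h9
    linarith
  have u1 : min r0 a ≤ r1 := rat_min hr0 (rat_neg ha) hr1 (by ring)
  have u2 : min r0 b ≤ r2 := rat_min hr0 (rat_neg hb) hr2 (by ring)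
  have u3 : min r1 a ≤ r0 := rat_min hr1 ha hr0 (by ring)
  have u4 : min r2 b ≤ r0 := rat_min hr2 hb hr0 (by ring)
  have u5 : min r1 (min a b) ≤ r2 := by
    rcases eq_or_ne (z - c) 0 with h | h
    · have : w - c = w - z := by linear_combination h
      rw [this, hr1] at hr2
      have h3 : r1 = r2 := by exact_mod_cast hr2
      rw [h3]
      exact min_le_left _ _
    · obtain ⟨g, hg⟩ := exists_rat (v := v) h
      have h3 : min a b ≤ g := rat_min ha (rat_neg hb) hg (by ring)
      have h4 : min r1 g ≤ r2 := rat_min hr1 hg hr2 (by ring)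
      exact le_trans (min_le_min_left _ h3) h4
  have u6 : min r2 (min a b) ≤ r1 := by
    rcases eq_or_ne (c - z) 0 with h | h
    · have : w - z = w - c := by linear_combination h
      rw [this, hr2] at hr1
      have h3 : r2 = r1 := by exact_mod_cast hr1
      rw [h3]
      exact min_le_left _ _
    · obtain ⟨g, hg⟩ := exists_rat (v := v) h
      have h3 : min a b ≤ g := by
        rw [min_comm]
        exact rat_min hb (rat_neg ha) hg (by ring)
      have h4 : min r2 g ≤ r1 := rat_min hr2 hg hr1 (by ring)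
      exact le_trans (min_le_min_left _ h3) h4
  -- the valuation of `w / 3`
  have hdiv : ∀ t : ℚ, v (3 : Qbar) = t → v (w / 3) = ((r0 - t : ℚ) : WithTop ℚ) := by
    intro t ht
    have hne : w / 3 ≠ 0 := div_ne_zero hw0 (by norm_num)
    obtain ⟨s, hs⟩ := exists_rat (v := v) hne
    have h3 : v w = v (w / 3) + v 3 := by
      rw [← AddValuation.map_mul]; congr 1; field_simp
    rw [hr0, hs, ht] at h3
    have h4 : r0 = s + t := by exact_mod_cast h3
    rw [hs]
    congr 1
    linarith
  by_cases hp3 : p = 3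
  · subst hp3
    have hn2 : n = 2 := by
      have := hv9 v hv
      rw [hn] at this
      exact_mod_cast WithTop.coe_eq_coe.1 this
    have hm0 : m = 0 := by
      have := hv.val_nat_coprime hD'0 hD'
      rw [hm] at this
      exact_mod_cast this
    have hb0 : 0 ≤ b := by
      have := hcv v hv
      rw [hb] at this
      exact_mod_cast this
    have heE : e ≤ min a 0 := by
      have := hE3 v hv a ha
      rw [he] at this
      exact WithTop.coe_le_coe.1 this
    obtain ⟨k0, k1, k2⟩ := arith3 hsum hb0 (by rw [hn2, hm0]; linarith) u1 u2 u3 u4 u5 u6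
    refine ⟨?_, ?_, ?_⟩
    · rw [hdiv 1 (by rw [hv.val_three]; rfl)]
      exact WithTop.coe_lt_coe.2 (by linarith : (r0 - 1 : ℚ) < 2)
    · rw [hr2]
      exact WithTop.coe_lt_coe.2 k2
    · rw [hr1]
      exact WithTop.coe_lt_coe.2 k1
  · have hn0 : n = 0 := by
      have h3 : v ((9 : ℕ) : Qbar) = 0 := hv.val_nat_coprime (by norm_num) (by
        intro h
        have h4 : p ∣ 3 ^ 2 := by simpa using h
        exact hp3 ((Nat.prime_dvd_prime_iff_eq hp (by norm_num)).1 (hp.dvd_of_dvd_pow h4)))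
      have h5 : v (9 : Qbar) = 0 := by exact_mod_cast h3
      rw [hn] at h5
      exact_mod_cast h5
    have h30 : v (3 : Qbar) = ((0 : ℚ) : WithTop ℚ) := by
      have h3 : v ((3 : ℕ) : Qbar) = 0 := hv.val_nat_coprime (by norm_num) (by
        intro h
        exact hp3 ((Nat.prime_dvd_prime_iff_eq hp (by norm_num)).1 h))
      exact_mod_cast h3
    -- the valuation of `D` is `m`
    have hDm : v (D : Qbar) = m := by
      have h3 : (D : Qbar) = (D.natAbs : Qbar) ∨ (D : Qbar) = -(D.natAbs : Qbar) := by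
        rcases Int.natAbs_eq D with h | h
        · left
          conv_lhs => rw [h, Int.cast_natCast]
        · right
          conv_lhs => rw [h, Int.cast_neg, Int.cast_natCast]
      have h4 : v (D : Qbar) = v (D.natAbs : Qbar) := by
        rcases h3 with h | h
        · rw [h]
        · rw [h, AddValuation.map_neg]
      rw [h4, hDD]
      push_cast
      rw [AddValuation.map_mul, AddValuation.map_pow, h30, nsmul_coe, hm]
      norm_num
    have hm0 : 0 ≤ m := by
      have := hv.int_nonneg D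
      rw [hDm] at this
      exact_mod_cast this
    have haz : -m ≤ a := by
      have := hv.integral_nonneg hDz
      rw [AddValuation.map_mul, hDm, ha] at this
      have h3 : 0 ≤ m + a := by exact_mod_cast this
      linarith
    have hbc : -m ≤ b := by
      have := hv.integral_nonneg hDc
      rw [AddValuation.map_mul, hDm, hb] at this
      have h3 : 0 ≤ m + b := by exact_mod_cast this
      linarith
    have hem : e ≤ m := by
      have h3 := hv.integral_nonneg hDE
      have h4 : v (D : Qbar) = v ((D : Qbar) * E⁻¹) + v E := by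
        rw [← AddValuation.map_mul]; congr 1; field_simp
      rw [hDm, he] at h4
      have h5 : (e : WithTop ℚ) ≤ m := by
        rw [h4]
        calc (e : WithTop ℚ) = 0 + e := by rw [zero_add]
          _ ≤ _ := by gcongr
      exact_mod_cast h5
    obtain ⟨k0, k1, k2⟩ := arithp hsum hm0 haz hbc (by rw [hn0]; linarith) u1 u2 u3 u4 u5 u6
    refine ⟨?_, ?_, ?_⟩
    · rw [hdiv 0 h30]
      exact WithTop.coe_lt_coe.2 (by linarith : (r0 - 0 : ℚ) < 2)
    · rw [hr2]
      exact WithTop.coe_lt_coe.2 k2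
    · rw [hr1]
      exact WithTop.coe_lt_coe.2 k1

end key

end Pool.Agent.R612.TP
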