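import Pool.Agent.R612.TP.Key

/-!
The tower of the square roots of ten, and the elements which separate the places above `3`.
-/

set_option autoImplicit false

namespace Pool.Agent.R612.TP

open Polynomial

theorem exists_sqrt (x : Qbar) : ∃ y : Qbar, y ^ 2 = x :=
  IsAlgClosed.exists_pow_nat_eq x (by norm_num)

/-- `al n` is a `2 ^ n`-th root of `10` -/
noncomputable def al : ℕ → Qbar
  | 0 => 10
  | n + 1 => (exists_sqrt (al n)).choose

theorem al_succ (n : ℕ) : al (n + 1) ^ 2 = al n := (exists_sqrt (al n)).choose_spec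

theorem al_pow (n : ℕ) : al n ^ 2 ^ n = 10 := by
  induction n with
  | zero => simp [al]
  | succ n ih => rw [pow_succ', pow_mul, al_succ, ih]

/-- `et n` is a primitive root of unity of order `2 ^ (n + 1)` -/
noncomputable def et : ℕ → Qbar
  | 0 => -1
  | n + 1 => (exists_sqrt (et n)).choose

theorem et_succ (n : ℕ) : et (n + 1) ^ 2 = et n := (exists_sqrt (et n)).choose_spec

theorem et_pow (n : ℕ) : et n ^ 2 ^ n = -1 := by
  induction n with
  | zero => simp [et]
  | succ n ih => rw [pow_succ', pow_mul, et_succ, ih]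

theorem et_pow' {m n : ℕ} (h : m < n) : et m ^ 2 ^ n = 1 := by
  obtain ⟨k, rfl⟩ := Nat.exists_eq_add_of_lt h
  rw [show m + k + 1 = m + (k + 1) by ring, pow_add, pow_mul, et_pow, pow_succ', pow_mul]
  simp

section

variable {v : Val}

theorem val_two (hv : Ext 3 v) : v (2 : Qbar) = 0 := by
  have := hv.val_nat_coprime (n := 2) (by norm_num) (by norm_num)
  exact_mod_cast this

theorem val_of_pow {x : Qbar} {n : ℕ} (hn : n ≠ 0) (h : v (x ^ n) = 0) : v x = 0 := by
  have hx : x ≠ 0 := by
    rintro rfl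
    rw [zero_pow hn, AddValuation.map_zero] at h
    exact WithTop.top_ne_zero h
  obtain ⟨r, hr⟩ := exists_rat (v := v) hx
  rw [AddValuation.map_pow, hr, nsmul_coe] at h
  have h1 : (n : ℚ) * r = 0 := by exact_mod_cast h
  have h2 : r = 0 := by
    rcases mul_eq_zero.1 h1 with h3 | h3
    · exact absurd (by exact_mod_cast h3) hn
    · exact h3
  rw [hr, h2]
  rfl

theorem val_al (hv : Ext 3 v) (n : ℕ) : v (al n) = 0 := by
  refine val_of_pow (n := 2 ^ n) (by positivity) ?_
  rw [al_pow]
  have := hv.val_nat_coprime (n := 10) (by norm_num) (by norm_num)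
  exact_mod_cast this

theorem val_et (n : ℕ) : v (et n) = 0 := by
  refine val_of_pow (n := 2 ^ n) (by positivity) ?_
  rw [et_pow, AddValuation.map_neg, AddValuation.map_one]

theorem sub_one_dvd_val {x : Qbar} (hx : 0 ≤ v x) (n : ℕ) : v (x - 1) ≤ v (x ^ n - 1) := by
  have h : x ^ n - 1 = (x - 1) * ∑ i ∈ Finset.range n, x ^ i := by
    rw [mul_comm, geom_sum_mul]
  rw [h, AddValuation.map_mul]
  have h2 : 0 ≤ v (∑ i ∈ Finset.range n, x ^ i) := by
    refine AddValuation.map_le_sum v fun i _ => ?_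
    rw [AddValuation.map_pow]
    exact nsmul_nonneg hx i
  calc v (x - 1) = v (x - 1) + 0 := by rw [add_zero]
    _ ≤ _ := by gcongr

/-- distinct elements `et m`, `et n` are not congruent above `3` -/
theorem val_et_sub (hv : Ext 3 v) {m n : ℕ} (h : m ≠ n) : v (et m - et n) ≤ 0 := by
  wlog hlt : m < n generalizing m n
  · rw [AddValuation.map_sub_swap]
    exact this h.symm (lt_of_le_of_ne (not_lt.1 hlt) h.symm)
  have hn0 : et n ≠ 0 := by
    intro h0
    have := et_pow n
    rw [h0, zero_pow (by positivity)] at this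
    norm_num at this
  set ρ : Qbar := et m / et n with hρ
  have h1 : ρ ^ 2 ^ n = -1 := by
    rw [hρ, div_pow, et_pow' hlt, et_pow]
    norm_num
  have hvρ : v ρ = 0 := by
    refine val_of_pow (n := 2 ^ n) (by positivity) ?_
    rw [h1, AddValuation.map_neg, AddValuation.map_one]
  have h2 : et m - et n = et n * (ρ - 1) := by
    rw [hρ]
    field_simp
  rw [h2, AddValuation.map_mul, val_et, zero_add]
  refine le_trans (sub_one_dvd_val hvρ.ge (2 ^ n)) ?_
  rw [h1]
  have : (-1 - 1 : Qbar) = -2 := by norm_num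
  rw [this, AddValuation.map_neg, val_two hv]

theorem nine_eq (n : ℕ) : (9 : Qbar) = (al n - 1) * ∏ m ∈ Finset.range n, (al (m + 1) + 1) := by
  induction n with
  | zero => simp [al]; norm_num
  | succ n ih =>
    rw [Finset.prod_range_succ]
    have : (al (n + 1) - 1) * ((∏ m ∈ Finset.range n, (al (m + 1) + 1)) * (al (n + 1) + 1)) =
        (al (n + 1) ^ 2 - 1) * ∏ m ∈ Finset.range n, (al (m + 1) + 1) := by ring
    rw [this, al_succ, ← ih]

theorem al_plus_nonneg (hv : Ext 3 v) (n : ℕ) : 0 ≤ v (al n + 1) :=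
  AddValuation.map_le_add v (val_al hv n).ge (by rw [AddValuation.map_one])

theorem al_minus_nonneg (hv : Ext 3 v) (n : ℕ) : 0 ≤ v (al n - 1) :=
  AddValuation.map_le_sub v (val_al hv n).ge (by rw [AddValuation.map_one])

/-- if `al n` is near `-1` then `al l`, `l < n`, is near `1` -/
theorem al_lower (hv : Ext 3 v) {n l : ℕ} (h : 0 < v (al n + 1)) (hl : l < n) :
    0 < v (al l - 1) := by
  obtain ⟨k, rfl⟩ := Nat.exists_eq_add_of_lt hl
  have h1 : al (l + k + 1) ^ 2 ^ (k + 1) = al l := by
    have : ∀ j m, al (m + j) ^ 2 ^ j = al m := by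
      intro j
      induction j with
      | zero => intro m; simp
      | succ j ih => intro m; rw [pow_succ', pow_mul, ← add_assoc, al_succ, ih]
    have := this (k + 1) l
    rwa [← add_assoc] at this
  set x := al (l + k + 1) with hx
  have h2 : (-x) ^ 2 ^ (k + 1) = al l := by
    rw [Even.neg_pow (by rw [pow_succ']; exact even_two_mul _), h1]
  have h3 : v (-x - 1) ≤ v (al l - 1) := by
    rw [← h2]
    exact sub_one_dvd_val (by rw [AddValuation.map_neg]; exact (val_al hv _).ge) _
  have h4 : -x - 1 = -(x + 1) := by ring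
  rw [h4, AddValuation.map_neg] at h3
  exact lt_of_lt_of_le h h3

theorem near_one_plus (hv : Ext 3 v) {x : Qbar} (h : 0 < v (x - 1)) : v (x + 1) = 0 := by
  have e : x + 1 = 2 + (x - 1) := by ring
  have h2 : v (2 : Qbar) < v (x - 1) := by rw [val_two hv]; exact h
  rw [e, AddValuation.map_add_eq_of_lt_left v h2, val_two hv]

theorem near_neg_minus (hv : Ext 3 v) {x : Qbar} (h : 0 < v (x + 1)) : v (x - 1) = 0 := by
  have e : x - 1 = -2 + (x + 1) := by ring
  have h2 : v (-2 : Qbar) < v (x + 1) := by rw [AddValuation.map_neg, val_two hv]; exact h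
  rw [e, AddValuation.map_add_eq_of_lt_left v h2, AddValuation.map_neg, val_two hv]

theorem val_nine (hv : Ext 3 v) : v (9 : Qbar) = 2 := by
  have h1 : (9 : Qbar) = 3 * 3 := by norm_num
  rw [h1, AddValuation.map_mul, hv.val_three]
  exact one_add_one_eq_two

/-- `al m` near `-1` implies that it is near to order two -/
theorem val_near (hv : Ext 3 v) {m : ℕ} (h : 0 < v (al (m + 1) + 1)) : v (al (m + 1) + 1) = 2 := by
  have h1 := congrArg v (nine_eq (m + 1))
  rw [val_nine hv, AddValuation.map_mul, near_neg_minus hv h, zero_add, Finset.prod_range_succ,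
    AddValuation.map_mul] at h1
  have h2 : v (∏ l ∈ Finset.range m, (al (l + 1) + 1)) = 0 := by
    have : ∀ k ≤ m, v (∏ l ∈ Finset.range k, (al (l + 1) + 1)) = 0 := by
      intro k
      induction k with
      | zero => intro _; simp
      | succ k ih =>
        intro hk
        rw [Finset.prod_range_succ, AddValuation.map_mul, ih (by omega),
          near_one_plus hv (al_lower hv h (by omega)), zero_add]
    exact this m le_rfl
  rw [h2, zero_add] at h1
  exact h1.symm

theorem al_plus_ne (n : ℕ) : al n + 1 ≠ 0 := by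
  intro h
  have h1 : al n = -1 := by linear_combination h
  have h2 := al_pow n
  rw [h1] at h2
  rcases Nat.eq_zero_or_pos n with rfl | hn
  · norm_num at h2
  · rw [Even.neg_pow (by rw [← Nat.sub_add_cancel hn, pow_succ']; exact even_two_mul _)] at h2
    norm_num at h2

/-- the elements which separate the places -/
noncomputable def cc (i : ℕ) : Qbar := 9 / (al (i + 1) + 1)

theorem cc_ne (i : ℕ) : cc i ≠ 0 := div_ne_zero (by norm_num) (al_plus_ne _)

theorem val_cc_add (hv : Ext 3 v) (i : ℕ) : v (cc i) + v (al (i + 1) + 1) = 2 := by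
  rw [← AddValuation.map_mul, cc, div_mul_cancel₀ _ (al_plus_ne _), val_nine hv]

/-- on `U_i` the element `cc i` is a unit -/
theorem val_cc_in (hv : Ext 3 v) {i : ℕ} (h : 0 < v (al (i + 1) + 1)) : v (cc i) = 0 := by
  have h1 := val_cc_add hv i
  rw [val_near hv h] at h1
  obtain ⟨r, hr⟩ := exists_rat (v := v) (cc_ne i)
  rw [hr] at h1 ⊢
  have h2 : r + 2 = 2 := by
    have : ((r + 2 : ℚ) : WithTop ℚ) = ((2 : ℚ) : WithTop ℚ) := h1
    exact WithTop.coe_eq_coe.1 this
  have h3 : r = 0 := by linarith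
  rw [h3]
  rfl

/-- outside of `U_i` it has valuation two -/
theorem val_cc_out (hv : Ext 3 v) {i : ℕ} (h : ¬ 0 < v (al (i + 1) + 1)) : v (cc i) = 2 := by
  have h1 := val_cc_add hv i
  have h2 : v (al (i + 1) + 1) = 0 := le_antisymm (not_lt.1 h) (al_plus_nonneg hv _)
  rw [h2, add_zero] at h1
  exact h1

theorem val_cc_nonneg (hv : Ext 3 v) (i : ℕ) : 0 ≤ v (cc i) := by
  by_cases h : 0 < v (al (i + 1) + 1)
  · rw [val_cc_in hv h]
  · rw [val_cc_out hv h]
    norm_num

/-- the sets `U_i` are disjoint -/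
theorem disj (hv : Ext 3 v) {i j : ℕ} (hij : i ≠ j) (hi : 0 < v (al (i + 1) + 1))
    (hj : 0 < v (al (j + 1) + 1)) : False := by
  wlog hlt : i < j generalizing i j
  · exact this hij.symm hj hi (lt_of_le_of_ne (not_lt.1 hlt) hij.symm)
  have h1 := near_one_plus hv (al_lower hv hj (show i + 1 < j + 1 by omega))
  rw [h1] at hi
  exact lt_irrefl _ hi

/-- approximate idempotents -/
noncomputable def ee (i : ℕ) : Qbar := - cc i / 2 ^ (i + 1)

theorem val_two_pow (hv : Ext 3 v) (n : ℕ) : v ((2 : Qbar) ^ n) = 0 := by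
  rw [AddValuation.map_pow, val_two hv, smul_zero]

theorem ee_mul (i : ℕ) : ee i * 2 ^ (i + 1) = - cc i := by
  rw [ee, div_mul_cancel₀ _ (pow_ne_zero _ (by norm_num))]

theorem val_ee_out (hv : Ext 3 v) {i : ℕ} (h : ¬ 0 < v (al (i + 1) + 1)) : v (ee i) = 2 := by
  have h1 := congrArg v (ee_mul i)
  rw [AddValuation.map_mul, val_two_pow hv, add_zero, AddValuation.map_neg, val_cc_out hv h] at h1
  exact h1

theorem val_ee_in (hv : Ext 3 v) {i : ℕ} (h : 0 < v (al (i + 1) + 1)) : 2 ≤ v (ee i - 1) := by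
  set s : Qbar := - al (i + 1) with hs
  have hs1 : s - 1 = -(al (i + 1) + 1) := by rw [hs]; ring
  have hs2 : 2 ≤ v (s - 1) := by
    rw [hs1, AddValuation.map_neg, val_near hv h]
  have hspow : s ^ 2 ^ (i + 1) = 10 := by
    rw [hs, Even.neg_pow (by rw [pow_succ']; exact even_two_mul _), al_pow]
  have h1 : (∑ j ∈ Finset.range (2 ^ (i + 1)), s ^ j) * (s - 1) = 9 := by
    rw [geom_sum_mul, hspow]
    norm_num
  have hne : s - 1 ≠ 0 := by
    rw [hs1]
    exact neg_ne_zero.2 (al_plus_ne _)
  have h2 : (∑ j ∈ Finset.range (2 ^ (i + 1)), s ^ j) = ee i * 2 ^ (i + 1) := by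
    rw [ee_mul, cc, eq_comm]
    have : al (i + 1) + 1 = -(s - 1) := by rw [hs1]; ring
    rw [this, div_neg, neg_neg, ← h1, mul_div_assoc, div_self hne, mul_one]
  have h3 : (ee i - 1) * 2 ^ (i + 1) = ∑ j ∈ Finset.range (2 ^ (i + 1)), (s ^ j - 1) := by
    rw [Finset.sum_sub_distrib, h2]
    simp
    ring
  have h4 : 2 ≤ v ((ee i - 1) * 2 ^ (i + 1)) := by
    rw [h3]
    exact AddValuation.map_le_sum v fun j _ => near_pow hs2 j
  rw [AddValuation.map_mul, val_two_pow hv, add_zero] at h4
  exact h4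

end

/-! ### the sets `U_i` are not empty -/

theorem irreducible_pow (n : ℕ) : Irreducible (X ^ 2 ^ n - C 10 : ℚ[X]) := by
  have hpos : 0 < 2 ^ n := by positivity
  have h1 : Irreducible (X ^ 2 ^ n - C 10 : ℤ[X]) := by
    refine irreducible_of_eisenstein_criterion (P := Ideal.span {(2 : ℤ)}) ?_ ?_ ?_ ?_ ?_ ?_
    · rw [Ideal.span_singleton_prime (by norm_num)]
      exact Int.prime_two
    · rw [leadingCoeff_X_pow_sub_C hpos, Ideal.mem_span_singleton]
      norm_num
    · intro m hm
      rw [degree_X_pow_sub_C hpos] at hm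
      have hm' : m < 2 ^ n := by exact_mod_cast hm
      rw [coeff_sub, coeff_X_pow, if_neg hm'.ne, zero_sub, Ideal.neg_mem_iff,
        Ideal.mem_span_singleton, coeff_C]
      split_ifs
      · norm_num
      · exact dvd_zero _
    · rw [degree_X_pow_sub_C hpos]
      exact_mod_cast hpos
    · rw [coeff_sub, coeff_X_pow, if_neg (by omega), coeff_C_zero, zero_sub, Ideal.neg_mem_iff,
        Ideal.span_singleton_pow, Ideal.mem_span_singleton]
      norm_num
    · exact (monic_X_pow_sub_C _ hpos.ne').isPrimitive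
  have h2 := (IsPrimitive.Int.irreducible_iff_irreducible_map_cast
    (monic_X_pow_sub_C (10 : ℤ) hpos.ne').isPrimitive).1 h1
  have h3 : (X ^ 2 ^ n - C 10 : ℤ[X]).map (Int.castRingHom ℚ) = X ^ 2 ^ n - C 10 := by
    rw [Polynomial.map_sub, Polynomial.map_pow, map_X, map_C]
    simp
  rwa [h3] at h2

theorem conj_root {n : ℕ} {x : Qbar} (hx : x ^ 2 ^ n = 10) : ∃ σ : Qbar ≃ₐ[ℚ] Qbar,
    σ (al n) = x := by
  have hpos : 0 < 2 ^ n := by positivity
  have hmin : ∀ y : Qbar, y ^ 2 ^ n = 10 → minpoly ℚ y = X ^ 2 ^ n - C 10 := by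
    intro y hy
    refine (minpoly.eq_of_irreducible_of_monic (irreducible_pow n) ?_
      (monic_X_pow_sub_C _ hpos.ne')).symm
    simp [hy]
  have h1 : IsConjRoot ℚ x (al n) := by
    rw [IsConjRoot, hmin x hx, hmin _ (al_pow n)]
  exact isConjRoot_iff_exists_algEquiv.1 h1

theorem exists_place (i : ℕ) : ∃ v : Val, Ext 3 v ∧ 0 < v (al (i + 1) + 1) := by
  obtain ⟨v, hv⟩ := exists_ext 3 (by norm_num)
  have hpos : 0 < 2 ^ (i + 1) := by positivity
  set F : Qbar[X] := X ^ 2 ^ (i + 1) - C 10 with hF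
  have hmon : F.Monic := monic_X_pow_sub_C _ hpos.ne'
  have h1 : F.eval (-1) = (F.roots.map fun w => -1 - w).prod :=
    (IsAlgClosed.splits F).eval_eq_prod_roots_of_monic hmon (-1)
  have h2 : F.eval (-1) = -9 := by
    rw [hF]
    simp only [eval_sub, eval_pow, eval_X, eval_C]
    rw [Even.neg_pow (by rw [pow_succ']; exact even_two_mul _)]
    norm_num
  have h3 : ∃ w ∈ F.roots, 0 < v (-1 - w) := by
    by_contra hcon
    push Not at hcon
    have h4 : v (F.eval (-1)) ≤ 0 := by
      rw [h1, map_multiset_prod]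
      have : ∀ s : Multiset Qbar, (∀ w ∈ s, v (-1 - w) ≤ 0) →
          (s.map fun w => v (-1 - w)).sum ≤ 0 := by
        intro s
        induction s using Multiset.induction with
        | empty => intro _; simp
        | cons a s ih =>
          intro hs
          rw [Multiset.map_cons, Multiset.sum_cons]
          exact add_nonpos (hs a (Multiset.mem_cons_self _ _))
            (ih fun w hw => hs w (Multiset.mem_cons_of_mem hw))
      exact this _ hcon
    rw [h2, AddValuation.map_neg, val_nine hv] at h4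
    exact absurd h4 (by norm_num)
  obtain ⟨w, hw, hw2⟩ := h3
  have hw3 : w ^ 2 ^ (i + 1) = 10 := by
    have := (mem_roots'.1 hw).2
    rw [IsRoot, hF] at this
    simp only [eval_sub, eval_pow, eval_X, eval_C] at this
    linear_combination this
  obtain ⟨σ, hσ⟩ := conj_root hw3
  refine ⟨AddValuation.comap (σ : Qbar →+* Qbar) v, hv.comap σ, ?_⟩
  show 0 < v (σ (al (i + 1) + 1))
  rw [map_add, map_one, hσ]
  have : w + 1 = -(-1 - w) := by ring
  rw [this, AddValuation.map_neg]
  exact hw2

end Pool.Agent.R612.TP
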