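import Pool.Agent.R612.TP.Defs

/-!
Valuations of the field of algebraic numbers with values in `ℚ ∪ {∞}` which extend a `p`-adic
valuation of `ℚ`.
-/

set_option autoImplicit false

namespace Pool.Agent.R612.TP

section basic

variable {p : ℕ} {v : Val}

theorem Ext.int_nonneg (hv : Ext p v) (n : ℤ) : 0 ≤ v (n : Qbar) := by
  rcases eq_or_ne n 0 with rfl | hn
  · simp
  · have h := hv (n : ℚ) (by exact_mod_cast hn)
    rw [map_intCast] at h
    rw [h, padicValRat.of_int]
    have : (0 : ℚ) ≤ ((padicValInt p n : ℤ) : ℚ) := by positivity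
    exact_mod_cast this

theorem exists_rat {v : Val} {x : Qbar} (hx : x ≠ 0) : ∃ r : ℚ, v x = (r : WithTop ℚ) := by
  have h := (AddValuation.ne_top_iff v).2 hx
  exact ⟨(v x).untop h, by simp⟩

theorem nsmul_coe (n : ℕ) (r : ℚ) : n • (r : WithTop ℚ) = ((n * r : ℚ) : WithTop ℚ) := by
  rw [← WithTop.coe_nsmul, nsmul_eq_mul]

/-- algebraic integers have a nonnegative valuation -/
theorem Ext.integral_nonneg (hv : Ext p v) {a : Qbar} (ha : IsIntegral ℤ a) : 0 ≤ v a := by
  by_contra hneg
  push Not at hneg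
  have ha0 : a ≠ 0 := by
    rintro rfl
    simp at hneg
  obtain ⟨r, hr⟩ := exists_rat (v := v) ha0
  rw [hr] at hneg
  have hr0 : r < 0 := by exact_mod_cast hneg
  obtain ⟨f, hf, hfa⟩ := ha
  rw [← Polynomial.aeval_def] at hfa
  have hdeg : f.natDegree ≠ 0 := by
    intro h0
    have := Polynomial.eq_one_of_monic_natDegree_zero hf h0
    rw [this] at hfa
    simp at hfa
  rw [Polynomial.aeval_eq_sum_range, Finset.sum_range_succ] at hfa
  have h1 : f.coeff f.natDegree = 1 := hf
  rw [h1, one_smul] at hfa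
  have h2 : a ^ f.natDegree = - ∑ i ∈ Finset.range f.natDegree, f.coeff i • a ^ i := by
    linear_combination hfa
  have h3 : v (a ^ f.natDegree) = ((f.natDegree * r : ℚ) : WithTop ℚ) := by
    rw [AddValuation.map_pow, hr, nsmul_coe]
  have h4 : ((f.natDegree * r : ℚ) : WithTop ℚ) <
      v (∑ i ∈ Finset.range f.natDegree, f.coeff i • a ^ i) := by
    refine AddValuation.map_lt_sum v WithTop.coe_ne_top fun i hi => ?_
    rw [zsmul_eq_mul, AddValuation.map_mul, AddValuation.map_pow, hr, nsmul_coe]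
    have hi' : i < f.natDegree := Finset.mem_range.1 hi
    have h5 : ((f.natDegree * r : ℚ) : WithTop ℚ) < ((i * r : ℚ) : WithTop ℚ) := by
      have : (f.natDegree * r : ℚ) < i * r :=
        mul_lt_mul_of_neg_right (by exact_mod_cast hi') hr0
      exact_mod_cast this
    refine lt_of_lt_of_le h5 ?_
    have := hv.int_nonneg (f.coeff i)
    calc ((i * r : ℚ) : WithTop ℚ) = 0 + ((i * r : ℚ) : WithTop ℚ) := by rw [zero_add]
      _ ≤ v ((f.coeff i : ℤ) : Qbar) + ((i * r : ℚ) : WithTop ℚ) := by gcongr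
  rw [← AddValuation.map_neg v, ← h2, h3] at h4
  exact lt_irrefl _ h4

theorem Ext.val_three (hv : Ext 3 v) : v (3 : Qbar) = 1 := by
  have h := hv 3 (by norm_num)
  have h1 : padicValRat 3 (3 : ℚ) = 1 := by
    have := padicValRat.self (p := 3) (by norm_num)
    exact_mod_cast this
  rw [h1] at h
  simpa using h

theorem Ext.val_nat_coprime (hv : Ext p v) {n : ℕ} (hn : n ≠ 0) (h : ¬ p ∣ n) :
    v (n : Qbar) = 0 := by
  have h1 := hv (n : ℚ) (by exact_mod_cast hn)
  rw [map_natCast] at h1
  rw [h1, padicValRat.of_nat, padicValNat.eq_zero_of_not_dvd h]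
  simp

end basic

instance isAlg : Algebra.IsAlgebraic ℚ Qbar := AlgebraicClosure.isAlgebraic ℚ

instance isNormal : Normal ℚ Qbar := by
  have : IsAlgClosure ℚ Qbar := ⟨inferInstance, isAlg⟩
  exact IsAlgClosure.normal ℚ _

section existence

variable (p : ℕ) [hp : Fact p.Prime]

/-- an embedding of the algebraic numbers in an algebraic closure of `ℚ_p` -/
noncomputable def emb : Qbar →+* PadicAlgCl p :=
  (IsAlgClosed.lift : AlgebraicClosure ℚ →ₐ[ℚ] PadicAlgCl p).toRingHom

theorem emb_algebraMap (q : ℚ) : emb p (algebraMap ℚ Qbar q) = ((q : ℚ_[p]) : PadicAlgCl p) := by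
  simp

theorem exists_exponent (x : PadicAlgCl p) (hx : x ≠ 0) :
    ∃ r : ℚ, ‖x‖ = (p : ℝ) ^ (-(r : ℝ)) := by
  have h1 : ‖x‖ = ‖(minpoly ℚ_[p] x).coeff 0‖ ^ (1 / (minpoly ℚ_[p] x).natDegree : ℝ) :=
    spectralNorm.spectralNorm_eq_norm_coeff_zero_rpow (K := ℚ_[p]) (L := PadicAlgCl p) x
  have hint : IsIntegral ℚ_[p] x := (Algebra.IsAlgebraic.isAlgebraic x).isIntegral
  have h2 : (minpoly ℚ_[p] x).coeff 0 ≠ 0 := minpoly.coeff_zero_ne_zero hint hx
  rw [Padic.norm_eq_zpow_neg_valuation h2, ← Real.rpow_intCast, ← Real.rpow_mul (by positivity)]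
    at h1
  refine ⟨((minpoly ℚ_[p] x).coeff 0).valuation / (minpoly ℚ_[p] x).natDegree, ?_⟩
  rw [h1]
  congr 1
  push_cast
  ring

theorem exists_exponent' (x : Qbar) (hx : x ≠ 0) :
    ∃ r : ℚ, ‖emb p x‖ = (p : ℝ) ^ (-(r : ℝ)) :=
  exists_exponent p _ (by simpa using hx)

/-- the exponent of the norm -/
noncomputable def expo (x : Qbar) (hx : x ≠ 0) : ℚ := (exists_exponent' p x hx).choose

theorem expo_spec (x : Qbar) (hx : x ≠ 0) : ‖emb p x‖ = (p : ℝ) ^ (-(expo p x hx : ℝ)) :=
  (exists_exponent' p x hx).choose_spec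

theorem one_lt_p : (1 : ℝ) < p := by exact_mod_cast hp.out.one_lt

theorem expo_unique {x : Qbar} (hx : x ≠ 0) {r : ℚ} (h : ‖emb p x‖ = (p : ℝ) ^ (-(r : ℝ))) :
    expo p x hx = r := by
  rw [expo_spec p x hx] at h
  have h1 := (Real.rpow_right_inj (by linarith [one_lt_p p]) (one_lt_p p).ne').1 h
  have h2 : (expo p x hx : ℝ) = r := by linarith
  exact_mod_cast h2

theorem expo_le {x y : Qbar} (hx : x ≠ 0) (hy : y ≠ 0) :
    expo p x hx ≤ expo p y hy ↔ ‖emb p y‖ ≤ ‖emb p x‖ := by
  rw [expo_spec p x hx, expo_spec p y hy, Real.rpow_le_rpow_left_iff (one_lt_p p)]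
  constructor
  · intro h
    have : (expo p x hx : ℝ) ≤ expo p y hy := by exact_mod_cast h
    linarith
  · intro h
    have : (expo p x hx : ℝ) ≤ expo p y hy := by linarith
    exact_mod_cast this

open Classical in
/-- the valuation as a function -/
noncomputable def valFun (x : Qbar) : WithTop ℚ := if h : x = 0 then ⊤ else (expo p x h : ℚ)

theorem valFun_zero : valFun p 0 = ⊤ := by simp [valFun]

theorem valFun_ne {x : Qbar} (hx : x ≠ 0) : valFun p x = (expo p x hx : ℚ) := by
  simp [valFun, hx]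

/-- a valuation which extends the `p`-adic valuation -/
noncomputable def theVal : Val :=
  AddValuation.of (valFun p) (valFun_zero p)
    (by
      rw [valFun_ne p one_ne_zero, expo_unique p one_ne_zero (r := 0) (by simp)]
      simp)
    (by
      intro x y
      rcases eq_or_ne x 0 with rfl | hx
      · simp [valFun_zero]
      rcases eq_or_ne y 0 with rfl | hy
      · simp [valFun_zero]
      rcases eq_or_ne (x + y) 0 with h | h
      · rw [h, valFun_zero]
        exact le_top
      rw [valFun_ne p hx, valFun_ne p hy, valFun_ne p h]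
      have h1 : ‖emb p (x + y)‖ ≤ max ‖emb p x‖ ‖emb p y‖ := by
        rw [map_add]
        exact IsUltrametricDist.norm_add_le_max _ _
      rw [min_le_iff]
      rcases le_max_iff.1 h1 with h2 | h2
      · left
        exact_mod_cast (expo_le p hx h).2 h2
      · right
        exact_mod_cast (expo_le p hy h).2 h2)
    (by
      intro x y
      rcases eq_or_ne x 0 with rfl | hx
      · simp [valFun_zero]
      rcases eq_or_ne y 0 with rfl | hy
      · simp [valFun_zero]
      rw [valFun_ne p hx, valFun_ne p hy, valFun_ne p (mul_ne_zero hx hy),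
        expo_unique p (mul_ne_zero hx hy) (r := expo p x hx + expo p y hy)]
      · push_cast
        rfl
      · rw [map_mul, norm_mul, expo_spec p x hx, expo_spec p y hy,
          ← Real.rpow_add (by linarith [one_lt_p p])]
        congr 1
        push_cast
        ring)

theorem theVal_ext : Ext p (theVal p) := by
  intro q hq
  have hq' : (algebraMap ℚ Qbar q) ≠ 0 := by simpa using hq
  show valFun p _ = _
  rw [valFun_ne p hq']
  congr 1
  refine expo_unique p hq' ?_
  rw [emb_algebraMap, PadicAlgCl.norm_extends, Padic.norm_eq_zpow_neg_valuation (by exact_mod_cast hq),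
    Padic.valuation_ratCast, ← Real.rpow_intCast]
  congr 1
  push_cast
  ring

end existence

theorem exists_ext (p : ℕ) (hp : p.Prime) : ∃ v : Val, Ext p v := by
  have : Fact p.Prime := ⟨hp⟩
  exact ⟨theVal p, theVal_ext p⟩

/-- composition with an automorphism -/
theorem Ext.comap {p : ℕ} {v : Val} (hv : Ext p v) (σ : Qbar ≃ₐ[ℚ] Qbar) :
    Ext p (AddValuation.comap (σ : Qbar →+* Qbar) v) := by
  intro q hq
  show v (σ (algebraMap ℚ Qbar q)) = _
  rw [AlgEquiv.commutes]
  exact hv q hq

end Pool.Agent.R612.TP
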